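import Pool.Agent.H942Z.JumpB

set_option autoImplicit false

open MeasureTheory Set
open Pool.Agent.H942Z.Jump

namespace Pool.Agent.Results.MP_9b97c3_lc.ADoubleJump

/-- The `G`-jump of a relation `E` on `X`: a relation on `X^G`. -/
def jump {X : Type} (G : Type) [Group G] (E : X → X → Prop) : (G → X) → (G → X) → Prop :=
  fun α β => ∃ g : G, ∀ h : G, E (α (g⁻¹ * h)) (β h)

/-- Borel reducibility of `E` on `X` to `F` on `Y`. -/
def BorelReducible {X Y : Type} [TopologicalSpace X] [TopologicalSpace Y]
    (E : X → X → Prop) (F : Y → Y → Prop) : Prop :=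
  ∃ f : X → Y, @Measurable X Y (borel X) (borel Y) f ∧ ∀ x x', E x x' ↔ F (f x) (f x')

theorem result (X : Type) [TopologicalSpace X] [PolishSpace X] [Nontrivial X]
    (G H : Type) [Group G] [Countable G] [Infinite G] [Group H] [Countable H] [Infinite H]
    (K : Type) [Group K] [Countable K] :
    ¬ BorelReducible (jump H (jump G (fun x y : X => x = y))) (jump K (fun x y : X => x = y)) := by
  classical
  rintro ⟨f, hf, hred⟩
  obtain ⟨a, b, hab⟩ := exists_pair_ne X
  let c : ZMod 2 → X := fun z => if z = 0 then a else b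
  have hc : Function.Injective c := by
    have h01 : ∀ z : ZMod 2, z = 0 ∨ z = 1 := by decide
    intro z w h
    rcases h01 z with rfl | rfl <;> rcases h01 w with rfl | rfl
    · rfl
    · exact absurd (by simpa [c] using h) hab
    · exact absurd (by simpa [c] using h.symm) hab
    · rfl
  let ι : (H × G → ZMod 2) → H → G → X := fun ω h g => c (ω (h, g))
  have hι : Continuous ι := continuous_pi (fun h => continuous_pi (fun g =>
    (continuous_of_discreteTopology (f := c)).comp (continuous_apply (h, g))))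
  let : MeasurableSpace (H → G → X) := borel _
  have : BorelSpace (H → G → X) := ⟨rfl⟩
  let : MeasurableSpace (K → X) := borel _
  have : BorelSpace (K → X) := ⟨rfl⟩
  obtain ⟨m, hm1, hm2⟩ := MeasurableSpace.measurable_injection_nat_bool_of_countablySeparated (K → X)
  refine key (G := G) (H := H) (fun ω => m (f (ι ω))) (hm1.comp (hf.comp hι.measurable)) ?_ ?_
  · intro ω
    have hcount : (range (fun k : K => m (fun h => f (ι ω) (k⁻¹ * h)))).Countable :=
      countable_range _
    refine hcount.mono ?_
    rintro _ ⟨γ, rfl⟩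
    have h1 : jump H (jump G (fun x y : X => x = y)) (ι ω) (ι (res (sh γ) ω)) := by
      refine ⟨1, fun h => ⟨γ h, fun t => ?_⟩⟩
      simp [ι, res, sh]
    obtain ⟨k, hk⟩ := (hred _ _).1 h1
    exact ⟨k, congrArg m (funext hk)⟩
  · intro ω ω' h h₀
    have h1 : f (ι ω) = f (ι ω') := hm2 h
    have h2 : jump K (fun x y : X => x = y) (f (ι ω)) (f (ι ω')) :=
      ⟨1, fun t => by rw [h1]; simp⟩
    obtain ⟨k, hk⟩ := (hred _ _).2 h2
    obtain ⟨g, hg⟩ := hk h₀
    exact ⟨k⁻¹ * h₀, g⁻¹, fun t => (hc (hg t)).symm⟩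

end Pool.Agent.Results.MP_9b97c3_lc.ADoubleJump
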